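import Pool.Agent.R489.HC.Stm

/-! The infimum of the lengths is attained. -/

set_option autoImplicit false

namespace Pool.Agent.R74.HC

open Pool.Agent.R489.HC

theorem coord_le_one {V : Type} [DecidableEq V] (G : SimpleGraph V) (p : V → ℝ)
    (hp : p ∈ Gam G) (x : V) : p x ≤ 1 := by
  rcases hp with ⟨u, rfl⟩ | ⟨u, w, huw, s, h0, h1, rfl⟩
  · by_cases h : x = u
    · subst h; simp
    · simp [Pi.single_eq_of_ne h]
  · have hne : u ≠ w := huw.ne
    by_cases h : x = u
    · subst h
      simp [Pi.single_eq_of_ne hne]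
      exact h0
    · by_cases h' : x = w
      · subst h'
        simp [Pi.single_eq_of_ne h]
        exact h1
      · simp [Pi.single_eq_of_ne h, Pi.single_eq_of_ne h']

theorem ATT : S_ATT := by
  intro V _ _ G p q hp hq
  constructor
  · intro hd
    by_contra hcon
    push Not at hcon
    have hfin : {l | l ∈ Lengths G p q ∧ l < 1}.Finite := by
      refine ((Set.finite_range (fun u : V => |p u - q u|)).union
        (Set.finite_range (fun uw : V × V => (1 - p uw.1) + (1 - q uw.2)))).subset ?_
      rintro l ⟨hl, hl1⟩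
      rcases hl with ⟨u, w, _, _, _, h⟩ | ⟨u, w, k, _, _, h⟩
      · exact Or.inl ⟨u, h.symm⟩
      · refine Or.inr ⟨(u, w), ?_⟩
        have h1 := coord_le_one G p hp u
        have h2 := coord_le_one G q hq w
        have h3 : (k.length : ℝ) < 1 := by rw [h] at hl1; linarith
        have h4 : k.length = 0 := by
          have : k.length < 1 := by exact_mod_cast h3
          omega
        rw [h, h4]
        simp
    obtain ⟨d, hd1, hd2⟩ := Set.exists_min_image ({l | l ∈ Lengths G p q ∧ l < 1} ∪ {1}) id
      (hfin.union (Set.finite_singleton 1)) ⟨1, Or.inr rfl⟩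
    have hd3 : 1 / 2 < d := by
      rcases hd1 with h | h
      · exact hcon d h.1
      · have : d = 1 := h
        rw [this]; norm_num
    have hd4 : ∀ l ∈ Lengths G p q, d ≤ l := by
      intro l hl
      by_cases h : l < 1
      · exact hd2 l (Or.inl ⟨hl, h⟩)
      · exact (hd2 1 (Or.inr rfl)).trans (not_lt.1 h)
    have h5 : ENNReal.ofReal d ≤ dist G p q := by
      unfold Pool.Agent.R489.HC.dist
      exact le_iInf₂ fun l hl => ENNReal.ofReal_le_ofReal (hd4 l hl)
    have h6 := (ENNReal.ofReal_le_ofReal_iff (by norm_num)).1 (h5.trans hd)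
    linarith
  · rintro ⟨l, hl, h⟩
    unfold Pool.Agent.R489.HC.dist
    exact (iInf₂_le l hl).trans (ENNReal.ofReal_le_ofReal h)

end Pool.Agent.R74.HC
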